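import Pool.Agent.Helper15.FC.St1

set_option autoImplicit false

namespace Pool.Agent.Helper29.FC

open Pool.Agent.Helper15.FC Polynomial

noncomputable section

/-- the generating set -/
def gs {L : Type} [Field L] {b q : ℕ} (y : Fin b → PowerSeries L) (j : ℕ) :
    Set (PowerSeries L) :=
  {v : PowerSeries L | ∃ (i : ℕ) (e : Fin b → Fin q),
      i + ∑ t, (e t : ℕ) ≤ j ∧ v = PowerSeries.X ^ i * ymon y e}

theorem coe_poly_eq {L : Type} [Field L] (p : L[X]) (q : ℕ) (hp : p.natDegree < q) :
    (p : PowerSeries L) = ∑ i ∈ Finset.range q, p.coeff i • (PowerSeries.X : PowerSeries L) ^ i := by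
  conv_lhs => rw [Polynomial.as_sum_range' p q hp]
  have h : ∀ s : Finset ℕ, ((∑ i ∈ s, Polynomial.monomial i (p.coeff i) : L[X]) : PowerSeries L) =
      ∑ i ∈ s, p.coeff i • (PowerSeries.X : PowerSeries L) ^ i := by
    intro s
    have h2 := map_sum (Polynomial.coeToPowerSeries.ringHom (R := L))
      (fun i => Polynomial.monomial i (p.coeff i)) s
    have h3 : ∀ r : L[X], Polynomial.coeToPowerSeries.ringHom r = (r : PowerSeries L) := fun r => rfl
    rw [h3] at h2
    rw [h2]
    refine Finset.sum_congr rfl fun i _ => ?_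
    rw [h3, ← Polynomial.C_mul_X_pow_eq_monomial, Polynomial.coe_mul, Polynomial.coe_C,
      Polynomial.coe_pow, Polynomial.coe_X, PowerSeries.smul_eq_C_mul]
  exact h _

theorem mono_mem {L : Type} [Field L] {b q : ℕ} {XX : Matrix (Fin b) (Fin b) L[X]}
    {y : Fin b → PowerSeries L} (hq : 2 ≤ q) (hS : Sys q XX y) (j : ℕ) :
    ∀ (n : ℕ) (i : ℕ) (e : Fin b → ℕ), ∑ t, e t = n → i + ∑ t, e t ≤ j →
      PowerSeries.X ^ i * ∏ t, y t ^ e t ∈ Submodule.span L (gs (q := q) y j) := by
  intro n
  induction n using Nat.strong_induction_on with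
  | _ n ih =>
    intro i e hn hj
    by_cases hall : ∀ t, e t < q
    · apply Submodule.subset_span
      exact ⟨i, fun t => ⟨e t, hall t⟩, hj, rfl⟩
    · push Not at hall
      obtain ⟨t, ht⟩ := hall
      obtain ⟨e', he'⟩ : ∃ e' : Fin b → ℕ, e' = Function.update e t (e t - q) := ⟨_, rfl⟩
      have hsum : ∑ s, e' s + q = ∑ s, e s := by
        have h1 := Finset.add_sum_erase Finset.univ e (Finset.mem_univ t)
        have h2 := Finset.add_sum_erase Finset.univ e' (Finset.mem_univ t)
        have h3 : ∑ s ∈ Finset.univ.erase t, e' s = ∑ s ∈ Finset.univ.erase t, e s := by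
          refine Finset.sum_congr rfl fun s hs => ?_
          rw [he', Function.update_of_ne (Finset.ne_of_mem_erase hs)]
        have h4 : e' t = e t - q := by rw [he', Function.update_self]
        omega
      have hprod : ∏ s, y s ^ e s = y t ^ q * ∏ s, y s ^ e' s := by
        rw [← Finset.mul_prod_erase Finset.univ (fun s => y s ^ e s) (Finset.mem_univ t),
          ← Finset.mul_prod_erase Finset.univ (fun s => y s ^ e' s) (Finset.mem_univ t)]
        have h3 : ∏ s ∈ Finset.univ.erase t, y s ^ e' s = ∏ s ∈ Finset.univ.erase t, y s ^ e s := by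
          refine Finset.prod_congr rfl fun s hs => ?_
          rw [he', Function.update_of_ne (Finset.ne_of_mem_erase hs)]
        have h4 : e' t = e t - q := by rw [he', Function.update_self]
        rw [h3, h4, ← mul_assoc, ← pow_add]
        congr 2
        omega
      have hdel : ∀ u : Fin b, y u * ∏ s, y s ^ e' s = ∏ s, y s ^ (e' + Pi.single u 1 : Fin b → ℕ) s := by
        intro u
        have h1 : ∏ s, y s ^ (e' + Pi.single u 1 : Fin b → ℕ) s =
            (∏ s, y s ^ e' s) * ∏ s, y s ^ (Pi.single u 1 : Fin b → ℕ) s := by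
          rw [← Finset.prod_mul_distrib]
          refine Finset.prod_congr rfl fun s _ => ?_
          rw [Pi.add_apply, pow_add]
        have h2 : ∏ s, y s ^ (Pi.single u 1 : Fin b → ℕ) s = y u := by
          rw [Finset.prod_eq_single u]
          · rw [Pi.single_eq_same, pow_one]
          · intro s _ hs
            rw [Pi.single_eq_of_ne hs, pow_zero]
          · intro h
            exact absurd (Finset.mem_univ u) h
        rw [h1, h2, mul_comm]
      have hsd : ∀ u : Fin b, ∑ s, (e' + Pi.single u 1 : Fin b → ℕ) s = ∑ s, e' s + 1 := by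
        intro u
        have h1 : ∑ s, (e' + Pi.single u 1 : Fin b → ℕ) s = ∑ s, e' s + ∑ s, (Pi.single u 1 : Fin b → ℕ) s := by
          rw [← Finset.sum_add_distrib]
          rfl
        rw [h1, Finset.sum_pi_single']
        simp
      have hexp : PowerSeries.X ^ i * ∏ s, y s ^ e s =
          ∑ u, ∑ i' ∈ Finset.range q, (XX t u).coeff i' •
            (PowerSeries.X ^ (i + i') * ∏ s, y s ^ (e' + Pi.single u 1 : Fin b → ℕ) s) := by
        rw [hprod, hS.1 t, Finset.sum_mul, Finset.mul_sum]
        refine Finset.sum_congr rfl fun u _ => ?_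
        rw [coe_poly_eq (XX t u) q (lt_of_le_of_lt (hS.2 t u) (by omega)), Finset.sum_mul,
          Finset.sum_mul, Finset.mul_sum]
        refine Finset.sum_congr rfl fun i' _ => ?_
        rw [← hdel u, pow_add, PowerSeries.smul_eq_C_mul, PowerSeries.smul_eq_C_mul]
        ring
      rw [hexp]
      refine Submodule.sum_mem _ fun u _ => Submodule.sum_mem _ fun i' hi' => ?_
      refine Submodule.smul_mem _ _ ?_
      have hi2 := Finset.mem_range.1 hi'
      have h5 := hsd u
      refine ih (∑ s, (e' + Pi.single u 1 : Fin b → ℕ) s) ?_ (i + i') (e' + Pi.single u 1) rfl ?_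
      · omega
      · omega

theorem hRED : StRED := by
  intro L _ b q XX y hq hS j u hu
  change u ∈ Submodule.span L (gs (q := q) y j)
  unfold Vj at hu
  rw [Submodule.mem_map] at hu
  obtain ⟨Φ, hΦ, rfl⟩ := hu
  rw [MvPolynomial.mem_restrictTotalDegree] at hΦ
  have h1 : (ev y).toLinearMap Φ = ∑ d ∈ Φ.support, Φ.coeff d •
      (PowerSeries.X ^ d none * ∏ t, y t ^ d (some t)) := by
    change MvPolynomial.aeval (pt y) Φ = _
    rw [MvPolynomial.aeval_def, MvPolynomial.eval₂_eq']
    refine Finset.sum_congr rfl fun d _ => ?_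
    rw [Fintype.prod_option, Algebra.smul_def]
    rfl
  rw [h1]
  refine Submodule.sum_mem _ fun d hd => Submodule.smul_mem _ _ ?_
  refine mono_mem hq hS j _ (d none) (fun t => d (some t)) rfl ?_
  have h2 := MvPolynomial.le_totalDegree hd
  have h3 : (d.sum fun _ e => e) = d none + ∑ t, d (some t) := by
    rw [Finsupp.sum_fintype _ _ (fun _ => rfl), Fintype.sum_option]
  omega

end

end Pool.Agent.Helper29.FC
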