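import Pool.Agent.Helper15.FC.St4

set_option autoImplicit false

/-!
# Project FC, module WMX (MP_16cbc0_nt): the Weil bound for mixed character sums
-/

namespace Pool.Agent.Helper29.FC

open Pool.Agent.Helper15.FC Polynomial

noncomputable section

/-! ### the multiplicative character `χ ∘ norm` of `AdjoinRoot f` -/

theorem wmx_norm_mk {F : Type} [Field F] (f : F[X]) (hf : f.Monic) (x : F) :
    Algebra.norm F (AdjoinRoot.mk f (X - C x)) = (-1) ^ f.natDegree * f.eval x := by
  classical
  obtain ⟨pb, hpb⟩ : ∃ pb, pb = AdjoinRoot.powerBasis' hf := ⟨_, rfl⟩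
  have hgen : pb.gen = AdjoinRoot.root f := by rw [hpb]; rfl
  have hdim : pb.dim = f.natDegree := by rw [hpb]; rfl
  have h1 := charpoly_leftMulMatrix pb
  rw [hgen, AdjoinRoot.minpoly_root hf.ne_zero, hf.leadingCoeff, inv_one, C_1, mul_one] at h1
  have h2 := Matrix.eval_charpoly (Algebra.leftMulMatrix pb.basis (AdjoinRoot.root f)) x
  rw [h1] at h2
  rw [Algebra.norm_eq_matrix_det pb.basis]
  have h3 : Algebra.leftMulMatrix pb.basis (AdjoinRoot.mk f (X - C x)) =
      - (Matrix.scalar _ x - Algebra.leftMulMatrix pb.basis (AdjoinRoot.root f)) := by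
    have h4 : AdjoinRoot.mk f (X - C x) = AdjoinRoot.root f - algebraMap F (AdjoinRoot f) x := by
      rw [map_sub]
      rfl
    rw [h4, map_sub, AlgHom.commutes, neg_sub]
    rfl
  rw [h3, Matrix.det_neg, ← h2, Fintype.card_fin, hdim]

/-- the character `χ ∘ norm` -/
def wmxNorm {F : Type} [Field F] (f : F[X]) (hf : f.Monic) (χ : MulChar F ℂ) :
    MulChar (AdjoinRoot f) ℂ where
  toFun z := χ (Algebra.norm F z)
  map_one' := by rw [map_one, map_one]
  map_mul' a b := by rw [map_mul, map_mul]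
  map_nonunit' a ha := by
    haveI : Module.Finite F (AdjoinRoot f) := Module.Finite.of_basis (AdjoinRoot.powerBasis' hf).basis
    refine χ.map_nonunit ?_
    intro h
    apply ha
    rw [← Algebra.lmul_isUnit_iff (R := F), LinearMap.isUnit_iff_isUnit_det]
    exact h

theorem wmxNorm_apply {F : Type} [Field F] (f : F[X]) (hf : f.Monic) (χ : MulChar F ℂ)
    (z : AdjoinRoot f) : wmxNorm f hf χ z = χ (Algebra.norm F z) := rfl

/-! ### the logarithmic derivative `- X v' / v` -/

/-- `- X v' / v` as a power series -/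
def wmxLd {F : Type} [Field F] (v : F[X]) : PowerSeries F :=
  - (PowerSeries.X * (derivative v : PowerSeries F) * (v : PowerSeries F)⁻¹)

theorem wmx_cc {F : Type} [Field F] (v : F[X]) :
    PowerSeries.constantCoeff (v : PowerSeries F) = v.coeff 0 := by
  rw [← PowerSeries.coeff_zero_eq_constantCoeff_apply, Polynomial.coeff_coe]

theorem wmxLd_mul_self {F : Type} [Field F] (v : F[X]) (hv : v.coeff 0 ≠ 0) :
    wmxLd v * (v : PowerSeries F) = - (PowerSeries.X * (derivative v : PowerSeries F)) := by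
  unfold wmxLd
  have h : (v : PowerSeries F)⁻¹ * (v : PowerSeries F) = 1 :=
    PowerSeries.inv_mul_cancel _ (by rw [wmx_cc]; exact hv)
  rw [neg_mul, mul_assoc, h, mul_one]

theorem wmx_coe_ne {F : Type} [Field F] (v : F[X]) (hv : v.coeff 0 ≠ 0) :
    (v : PowerSeries F) ≠ 0 := by
  intro h
  apply hv
  rw [← wmx_cc, h, map_zero]

theorem wmxLd_mul {F : Type} [Field F] (v w : F[X]) (hv : v.coeff 0 ≠ 0) (hw : w.coeff 0 ≠ 0) :
    wmxLd (v * w) = wmxLd v + wmxLd w := by
  have hvw : (v * w).coeff 0 ≠ 0 := by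
    rw [Polynomial.mul_coeff_zero]
    exact mul_ne_zero hv hw
  apply mul_right_cancel₀ (wmx_coe_ne _ hvw)
  rw [wmxLd_mul_self _ hvw, Polynomial.coe_mul]
  have h1 := wmxLd_mul_self v hv
  have h2 := wmxLd_mul_self w hw
  have h3 : (wmxLd v + wmxLd w) * ((v : PowerSeries F) * (w : PowerSeries F)) =
      (wmxLd v * (v : PowerSeries F)) * (w : PowerSeries F) +
        (wmxLd w * (w : PowerSeries F)) * (v : PowerSeries F) := by ring
  rw [h3, h1, h2, Polynomial.derivative_mul, Polynomial.coe_add, Polynomial.coe_mul,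
    Polynomial.coe_mul]
  ring

theorem wmxLd_zero {F : Type} [Field F] (v : F[X]) : PowerSeries.coeff 0 (wmxLd v) = 0 := by
  unfold wmxLd
  rw [PowerSeries.coeff_zero_eq_constantCoeff_apply, map_neg, map_mul, map_mul,
    PowerSeries.constantCoeff_X, zero_mul, zero_mul, neg_zero]

theorem wmxLd_congr {F : Type} [Field F] (d : ℕ) (v w : F[X]) (hv : v.coeff 0 ≠ 0)
    (hw : w.coeff 0 ≠ 0) (h : (X : F[X]) ^ (d + 1) ∣ v - w) (j : ℕ) (hj : j ≤ d) :
    PowerSeries.coeff j (wmxLd v) = PowerSeries.coeff j (wmxLd w) := by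
  obtain ⟨u, hu⟩ := h
  have hv' : v = w + X ^ (d + 1) * u := by rw [← hu]; ring
  have hu1 : IsUnit ((v : PowerSeries F) * (w : PowerSeries F)) := by
    rw [PowerSeries.isUnit_iff_constantCoeff, map_mul, wmx_cc, wmx_cc]
    exact (mul_ne_zero hv hw).isUnit
  have h1 := wmxLd_mul_self v hv
  have h2 := wmxLd_mul_self w hw
  have h3 : (wmxLd v - wmxLd w) * ((v : PowerSeries F) * (w : PowerSeries F)) =
      (wmxLd v * (v : PowerSeries F)) * (w : PowerSeries F) -
        (wmxLd w * (w : PowerSeries F)) * (v : PowerSeries F) := by ring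
  have h4 : (PowerSeries.X : PowerSeries F) ^ (d + 1) ∣
      (wmxLd v - wmxLd w) * ((v : PowerSeries F) * (w : PowerSeries F)) := by
    rw [h3, h1, h2]
    have h5 : (derivative v : F[X]) = derivative w + ((C (((d + 1 : ℕ) : F)) * X ^ d) * u +
        X ^ (d + 1) * derivative u) := by
      rw [hv', Polynomial.derivative_add, Polynomial.derivative_mul, Polynomial.derivative_X_pow,
        Nat.add_sub_cancel]
    have h6 : ((derivative v : F[X]) : PowerSeries F) = (derivative w : PowerSeries F) +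
        ((PowerSeries.C (((d + 1 : ℕ) : F)) * PowerSeries.X ^ d) * (u : PowerSeries F) +
        PowerSeries.X ^ (d + 1) * (derivative u : PowerSeries F)) := by
      rw [h5]
      simp only [Polynomial.coe_add, Polynomial.coe_mul, Polynomial.coe_pow, Polynomial.coe_X,
        Polynomial.coe_C]
    have h7 : (v : PowerSeries F) = (w : PowerSeries F) +
        PowerSeries.X ^ (d + 1) * (u : PowerSeries F) := by
      conv_lhs => rw [hv']
      simp only [Polynomial.coe_add, Polynomial.coe_mul, Polynomial.coe_pow, Polynomial.coe_X]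
    rw [h6, h7]
    refine ⟨- ((PowerSeries.C (((d + 1 : ℕ) : F)) * (u : PowerSeries F) +
      PowerSeries.X * (derivative u : PowerSeries F)) * (w : PowerSeries F)) +
      PowerSeries.X * (derivative w : PowerSeries F) * (u : PowerSeries F), ?_⟩
    ring
  rw [hu1.dvd_mul_right, PowerSeries.X_pow_dvd_iff] at h4
  have h8 := h4 j (by omega)
  rw [map_sub] at h8
  exact sub_eq_zero.1 h8

/-! ### the additive functional -/

/-- `sum_j g_j p_j(v)` -/
def wmxS {F : Type} [Field F] (g v : F[X]) : F :=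
  ∑ j ∈ Finset.range (g.natDegree + 1), g.coeff j * PowerSeries.coeff j (wmxLd v)

theorem wmxS_mul {F : Type} [Field F] (g v w : F[X]) (hv : v.coeff 0 ≠ 0) (hw : w.coeff 0 ≠ 0) :
    wmxS g (v * w) = wmxS g v + wmxS g w := by
  unfold wmxS
  rw [wmxLd_mul v w hv hw, ← Finset.sum_add_distrib]
  refine Finset.sum_congr rfl fun j _ => ?_
  rw [map_add, mul_add]

theorem wmxS_one {F : Type} [Field F] (g : F[X]) : wmxS g 1 = 0 := by
  unfold wmxS
  refine Finset.sum_eq_zero fun j _ => ?_
  unfold wmxLd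
  rw [Polynomial.derivative_one, Polynomial.coe_zero, mul_zero, zero_mul, neg_zero, map_zero,
    mul_zero]

theorem wmxS_congr {F : Type} [Field F] (g v w : F[X]) (hv : v.coeff 0 ≠ 0)
    (hw : w.coeff 0 ≠ 0) (h : (X : F[X]) ^ (g.natDegree + 1) ∣ v - w) :
    wmxS g v = wmxS g w := by
  unfold wmxS
  refine Finset.sum_congr rfl fun j hj => ?_
  rw [wmxLd_congr g.natDegree v w hv hw h j (by have := Finset.mem_range.1 hj; omega)]

theorem wmxS_lin {F : Type} [Field F] (g : F[X]) (x : F) :
    wmxS g (1 - C x * X) = g.eval x - g.coeff 0 := by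
  have h0 : (1 - C x * X : F[X]).coeff 0 = 1 := by
    rw [Polynomial.coeff_sub, Polynomial.coeff_one_zero, Polynomial.mul_coeff_zero,
      Polynomial.coeff_X_zero, mul_zero, sub_zero]
  have h0' : (1 - C x * X : F[X]).coeff 0 ≠ 0 := by rw [h0]; exact one_ne_zero
  have h1 : wmxLd (1 - C x * X) = PowerSeries.mk (fun j => if j = 0 then 0 else x ^ j) := by
    apply mul_right_cancel₀ (wmx_coe_ne _ h0')
    rw [wmxLd_mul_self _ h0']
    have hd : derivative (1 - C x * X : F[X]) = - C x := by
      rw [Polynomial.derivative_sub, Polynomial.derivative_one, Polynomial.derivative_C_mul,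
        Polynomial.derivative_X, mul_one, zero_sub]
    rw [hd]
    simp only [Polynomial.coe_neg, Polynomial.coe_C, Polynomial.coe_sub, Polynomial.coe_one,
      Polynomial.coe_mul, Polynomial.coe_X]
    ext n
    rcases n with _ | n
    · simp
    · have e1 : - ((PowerSeries.X : PowerSeries F) * - PowerSeries.C x) =
          PowerSeries.C x * PowerSeries.X := by ring
      have e2 : (PowerSeries.mk (fun j => if j = 0 then (0 : F) else x ^ j)) *
          (1 - PowerSeries.C x * PowerSeries.X) =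
          PowerSeries.mk (fun j => if j = 0 then (0 : F) else x ^ j) -
          PowerSeries.C x * (PowerSeries.mk (fun j => if j = 0 then (0 : F) else x ^ j) *
          PowerSeries.X) := by ring
      rw [e1, e2, map_sub, PowerSeries.coeff_C_mul, PowerSeries.coeff_C_mul,
        PowerSeries.coeff_succ_mul_X, PowerSeries.coeff_mk, PowerSeries.coeff_mk,
        PowerSeries.coeff_X]
      rcases n with _ | n
      · simp
      · simp [pow_succ, mul_comm]
  unfold wmxS
  rw [h1, Polynomial.eval_eq_sum_range, Finset.sum_range_succ', Finset.sum_range_succ']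
  simp only [PowerSeries.coeff_mk]
  simp

theorem wmxS_top {F : Type} [Field F] (g : F[X]) (hd : 1 ≤ g.natDegree) (c : F) :
    wmxS g (1 - C c * X ^ g.natDegree) = g.leadingCoeff * ((g.natDegree : F) * c) := by
  obtain ⟨e, he⟩ : ∃ e, g.natDegree = e + 1 := ⟨g.natDegree - 1, by omega⟩
  have h0 : (1 - C c * X ^ g.natDegree : F[X]).coeff 0 = 1 := by
    rw [he, Polynomial.coeff_sub, Polynomial.coeff_one_zero, Polynomial.mul_coeff_zero, pow_succ,
      Polynomial.mul_coeff_zero, Polynomial.coeff_X_zero, mul_zero, mul_zero, sub_zero]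
  have h0' : (1 - C c * X ^ g.natDegree : F[X]).coeff 0 ≠ 0 := by rw [h0]; exact one_ne_zero
  have h1 := wmxLd_mul_self _ h0'
  have hder : derivative (1 - C c * X ^ g.natDegree : F[X]) =
      - (C ((g.natDegree : F) * c) * X ^ e) := by
    rw [Polynomial.derivative_sub, Polynomial.derivative_one, Polynomial.derivative_C_mul,
      Polynomial.derivative_X_pow, zero_sub, he, Nat.add_sub_cancel, Polynomial.C_mul]
    ring
  rw [hder] at h1
  obtain ⟨L, hL⟩ : ∃ L, L = wmxLd (1 - C c * X ^ g.natDegree : F[X]) := ⟨_, rfl⟩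
  have hL0 : PowerSeries.coeff 0 L = 0 := by rw [hL]; exact wmxLd_zero _
  rw [← hL] at h1
  simp only [Polynomial.coe_neg, Polynomial.coe_C, Polynomial.coe_sub, Polynomial.coe_one,
    Polynomial.coe_mul, Polynomial.coe_X, Polynomial.coe_pow] at h1
  have h2 : L = PowerSeries.C ((g.natDegree : F) * c) * PowerSeries.X ^ (e + 1) +
      PowerSeries.C c * (L * PowerSeries.X ^ (e + 1)) := by
    have h3 : L * (1 - PowerSeries.C c * PowerSeries.X ^ g.natDegree) +
        PowerSeries.C c * (L * PowerSeries.X ^ (e + 1)) = L := by rw [he]; ring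
    rw [h1] at h3
    conv_lhs => rw [← h3]
    ring
  have h3 : ∀ j, j ≤ e → PowerSeries.coeff j L = 0 := by
    intro j hj
    have h4 : (PowerSeries.X : PowerSeries F) ^ (e + 1) ∣ L :=
      ⟨PowerSeries.C ((g.natDegree : F) * c) + PowerSeries.C c * L, by
        conv_lhs => rw [h2]
        ring⟩
    rw [PowerSeries.X_pow_dvd_iff] at h4
    exact h4 j (by omega)
  have h4 : PowerSeries.coeff (e + 1) L = (g.natDegree : F) * c := by
    rw [h2, map_add, PowerSeries.coeff_C_mul, PowerSeries.coeff_C_mul, PowerSeries.coeff_X_pow_self,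
      PowerSeries.coeff_mul_X_pow', if_pos le_rfl, Nat.sub_self, hL0]
    ring
  unfold wmxS
  rw [← hL, Finset.sum_range_succ, Finset.sum_eq_zero, zero_add, Polynomial.leadingCoeff, he, h4,
    ← he]
  intro j hj
  rw [h3 j (by have := Finset.mem_range.1 hj; omega), mul_zero]

/-! ### the character of `TN F d` -/

open scoped Classical in
/-- value of the character on a class, through a representative -/
def wmxFun {F : Type} [Field F] (ψ : AddChar F ℂ) (g : F[X]) (z : TN F g.natDegree) : ℂ :=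
  if (Function.surjInv (AdjoinRoot.mk_surjective (g := (X ^ (g.natDegree + 1) : F[X]))) z).coeff 0
    = 0 then 0 else
  ψ (wmxS g (Function.surjInv (AdjoinRoot.mk_surjective (g := (X ^ (g.natDegree + 1) : F[X]))) z))

open scoped Classical in
theorem wmxFun_mk {F : Type} [Field F] (ψ : AddChar F ℂ) (g v : F[X]) :
    wmxFun ψ g (AdjoinRoot.mk (X ^ (g.natDegree + 1) : F[X]) v) =
      if v.coeff 0 = 0 then 0 else ψ (wmxS g v) := by
  obtain ⟨w, hw⟩ : ∃ w, w = Function.surjInv
    (AdjoinRoot.mk_surjective (g := (X ^ (g.natDegree + 1) : F[X])))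
    (AdjoinRoot.mk (X ^ (g.natDegree + 1) : F[X]) v) := ⟨_, rfl⟩
  have h1 : AdjoinRoot.mk (X ^ (g.natDegree + 1) : F[X]) w =
      AdjoinRoot.mk (X ^ (g.natDegree + 1) : F[X]) v := by
    rw [hw]
    exact Function.surjInv_eq _ _
  rw [AdjoinRoot.mk_eq_mk] at h1
  have h2 : w.coeff 0 = v.coeff 0 := by
    have h3 := (Polynomial.X_pow_dvd_iff.1 h1) 0 (by omega)
    rw [Polynomial.coeff_sub] at h3
    exact sub_eq_zero.1 h3
  unfold wmxFun
  rw [← hw, h2]
  split_ifs with h4
  · rfl
  · rw [wmxS_congr g w v (by rw [h2]; exact h4) h4 h1]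

/-- the character `v ↦ ψ(sum_j g_j p_j(v))` of `TN F d` -/
def wmxXi {F : Type} [Field F] (ψ : AddChar F ℂ) (g : F[X]) : MulChar (TN F g.natDegree) ℂ where
  toFun := wmxFun ψ g
  map_one' := by
    classical
    have h := wmxFun_mk ψ g 1
    rw [map_one] at h
    rw [h, Polynomial.coeff_one_zero, if_neg one_ne_zero, wmxS_one, AddChar.map_zero_eq_one]
  map_mul' a b := by
    classical
    obtain ⟨v, rfl⟩ := AdjoinRoot.mk_surjective (g := (X ^ (g.natDegree + 1) : F[X])) a
    obtain ⟨w, rfl⟩ := AdjoinRoot.mk_surjective (g := (X ^ (g.natDegree + 1) : F[X])) b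
    rw [← map_mul]
    simp only [wmxFun_mk]
    rw [Polynomial.mul_coeff_zero]
    by_cases hv : v.coeff 0 = 0
    · rw [hv, zero_mul, if_pos rfl, if_pos rfl, zero_mul]
    · by_cases hw : w.coeff 0 = 0
      · rw [hw, mul_zero, if_pos rfl, if_pos rfl, mul_zero]
      · rw [if_neg (mul_ne_zero hv hw), if_neg hv, if_neg hw, wmxS_mul g v w hv hw,
          AddChar.map_add_eq_mul]
  map_nonunit' a ha := by
    classical
    obtain ⟨v, rfl⟩ := AdjoinRoot.mk_surjective (g := (X ^ (g.natDegree + 1) : F[X])) a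
    change wmxFun ψ g _ = 0
    rw [wmxFun_mk, if_pos]
    by_contra hv
    apply ha
    have h1 : IsCoprime v (X ^ (g.natDegree + 1) : F[X]) := by
      apply IsCoprime.pow_right
      apply IsCoprime.symm
      rw [Polynomial.irreducible_X.coprime_iff_not_dvd, Polynomial.X_dvd_iff]
      exact hv
    obtain ⟨s, t, hst⟩ := h1
    have h2 : AdjoinRoot.mk (X ^ (g.natDegree + 1) : F[X]) (v * s) = 1 := by
      rw [← map_one (AdjoinRoot.mk (X ^ (g.natDegree + 1) : F[X])), AdjoinRoot.mk_eq_mk]
      refine ⟨- t, ?_⟩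
      rw [← hst]
      ring
    rw [map_mul] at h2
    exact IsUnit.of_mul_eq_one _ h2

theorem wmxXi_mk {F : Type} [Field F] (ψ : AddChar F ℂ) (g v : F[X]) (hv : v.coeff 0 ≠ 0) :
    wmxXi ψ g (AdjoinRoot.mk (X ^ (g.natDegree + 1) : F[X]) v) = ψ (wmxS g v) := by
  classical
  have h := wmxFun_mk ψ g v
  rw [if_neg hv] at h
  exact h

/-- **WMX**: the Weil bound for mixed sums -/
theorem hWMX (hWS1 : StWS1) : StWMX := by
  intro F _ _ χ ψ f g hf hψ hd
  classical
  have hd1 : 1 ≤ g.natDegree := by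
    by_contra h
    have h' : g.natDegree = 0 := by omega
    rw [h', Nat.cast_zero] at hd
    exact hd rfl
  have hg0 : g ≠ 0 := by
    intro h
    rw [h, Polynomial.natDegree_zero] at hd1
    omega
  have hlin0 : ∀ x : F, (1 - C x * X : F[X]).coeff 0 ≠ 0 := by
    intro x
    rw [Polynomial.coeff_sub, Polynomial.coeff_one_zero, Polynomial.mul_coeff_zero,
      Polynomial.coeff_X_zero, mul_zero, sub_zero]
    exact one_ne_zero
  have hNT : NTx (wmxXi ψ g) := by
    obtain ⟨y, hy⟩ : ∃ y, ψ y ≠ 1 := by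
      by_contra hcon
      push Not at hcon
      apply hψ
      ext y
      rw [hcon y, AddChar.one_apply]
    refine ⟨1 - C (y / (g.leadingCoeff * g.natDegree)) * X ^ g.natDegree, ?_, ?_⟩
    · obtain ⟨e, he⟩ : ∃ e, g.natDegree = e + 1 := ⟨g.natDegree - 1, by omega⟩
      rw [he, Polynomial.coeff_sub, Polynomial.coeff_one_zero, Polynomial.mul_coeff_zero, pow_succ,
        Polynomial.mul_coeff_zero, Polynomial.coeff_X_zero, mul_zero, mul_zero, sub_zero]
    · rw [wmxXi_mk, wmxS_top g hd1]
      · have h1 : g.leadingCoeff * ((g.natDegree : F) * (y / (g.leadingCoeff * g.natDegree))) = y := by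
          have h2 : g.leadingCoeff ≠ 0 := Polynomial.leadingCoeff_ne_zero.2 hg0
          field_simp
        rw [h1]
        exact hy
      · obtain ⟨e, he⟩ : ∃ e, g.natDegree = e + 1 := ⟨g.natDegree - 1, by omega⟩
        rw [he, Polynomial.coeff_sub, Polynomial.coeff_one_zero, Polynomial.mul_coeff_zero,
          pow_succ, Polynomial.mul_coeff_zero, Polynomial.coeff_X_zero, mul_zero, mul_zero,
          sub_zero]
        exact one_ne_zero
  have hmain := hWS1 F f g.natDegree (wmxNorm f hf χ) (wmxXi ψ g) hf (Or.inl hNT)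
  have hterm : ∀ x : F, wmxNorm f hf χ (AdjoinRoot.mk f (X - C x)) *
      wmxXi ψ g (AdjoinRoot.mk (X ^ (g.natDegree + 1) : F[X]) (1 - C x * X)) =
      (χ ((-1) ^ f.natDegree) * ψ (- g.coeff 0)) * (χ (f.eval x) * ψ (g.eval x)) := by
    intro x
    rw [wmxNorm_apply, wmx_norm_mk f hf, wmxXi_mk ψ g _ (hlin0 x), wmxS_lin, map_mul, sub_eq_add_neg,
      AddChar.map_add_eq_mul]
    ring
  rw [Finset.sum_congr rfl (fun x _ => hterm x), ← Finset.mul_sum, norm_mul, norm_mul] at hmain
  have h1 : ‖χ ((-1) ^ f.natDegree)‖ = 1 := by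
    have h2 : (χ ((-1) ^ f.natDegree)) ^ 2 = 1 := by
      rw [← map_pow, ← pow_mul, mul_comm, pow_mul, neg_one_sq, one_pow, map_one]
    have h3 : ‖χ ((-1) ^ f.natDegree)‖ ^ 2 = 1 := by
      rw [← norm_pow, h2, norm_one]
    exact (pow_eq_one_iff_of_nonneg (norm_nonneg _) two_ne_zero).1 h3
  have h2 : ‖ψ (- g.coeff 0)‖ = 1 := AddChar.norm_apply ψ _
  rw [h1, h2, one_mul, one_mul] at hmain
  refine hmain.trans (le_of_eq ?_)
  push_cast
  ring

end

end Pool.Agent.Helper29.FC
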